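import Pool.Agent.Run7.h207.GC.Iface

set_option autoImplicit false

/-! # Piece PC of the project of helper207: conditions given by polynomials -/

namespace Pool.Agent.Run7.h379.GC

open Finset Matrix Pool.Agent.Run7.h207.GC

variable {V : Type} {d : ℕ}

theorem pc_true : PC (fun _ : V → Fin d → ℝ => True) := ⟨1, fun w => by simp⟩

theorem pc_and {P Q : (V → Fin d → ℝ) → Prop} (hP : PC P) (hQ : PC Q) :
    PC (fun w => P w ∧ Q w) := by
  obtain ⟨p, hp⟩ := hP
  obtain ⟨q, hq⟩ := hQ
  exact ⟨p * q, fun w => by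
    show (P w ∧ Q w) ↔ _
    rw [map_mul, mul_ne_zero_iff, hp, hq]⟩

/-- the dot product as a polynomial -/
noncomputable def dotp (d : ℕ) (i j : V) : MvPolynomial (V × Fin d) ℝ :=
  ∑ a : Fin d, MvPolynomial.X (i, a) * MvPolynomial.X (j, a)

theorem eval_dotp (w : V → Fin d → ℝ) (i j : V) :
    MvPolynomial.eval (fun q : V × Fin d => w q.1 q.2) (dotp d i j) = w i ⬝ᵥ w j := by
  simp [dotp, dotProduct]

theorem pc_dot (i j : V) : PC (fun w : V → Fin d → ℝ => w i ⬝ᵥ w j ≠ 0) :=
  ⟨dotp d i j, fun w => by rw [eval_dotp]⟩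

open Classical in
theorem li_iff (w : V → Fin d → ℝ) (S : Finset V) :
    LI w S ↔ (Matrix.of fun s t : S => w s ⬝ᵥ w t).det ≠ 0 := by
  set W : Matrix S (Fin d) ℝ := Matrix.of fun s => w s with hW
  have hG : (Matrix.of fun s t : S => w s ⬝ᵥ w t) = W * Wᴴ := by
    ext s t
    simp [hW, Matrix.mul_apply, dotProduct]
  have h1 : LI w S ↔ ∀ g : S → ℝ, Wᴴ *ᵥ g = 0 → g = 0 := by
    unfold LI LinearIndepOn
    rw [Fintype.linearIndependent_iff]
    have h2 : ∀ g : S → ℝ, Wᴴ *ᵥ g = ∑ s : S, g s • w s := by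
      intro g
      ext a
      simp [hW, Matrix.mulVec, dotProduct, Finset.sum_apply, mul_comm]
    constructor
    · intro h g hg
      funext i
      refine h g ?_ i
      rw [h2] at hg
      exact hg
    · intro h g hg i
      have := h g (by rw [h2]; exact hg)
      rw [this]
      rfl
  rw [h1, hG, Ne, ← Matrix.exists_mulVec_eq_zero_iff]
  simp_rw [Matrix.self_mul_conjTranspose_mulVec_eq_zero]
  push Not
  refine forall_congr' fun g => ?_
  constructor
  · intro h hne h0
    exact hne (h h0)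
  · intro h h0
    by_contra hne
    exact h hne h0

theorem pc_LI (S : Finset V) : PC (fun w : V → Fin d → ℝ => LI w S) := by
  classical
  refine ⟨(Matrix.of fun s t : S => dotp d (s : V) (t : V)).det, fun w => ?_⟩
  show LI w S ↔ _
  rw [li_iff, RingHom.map_det]
  have : (MvPolynomial.eval (fun q : V × Fin d => w q.1 q.2)).mapMatrix
      (Matrix.of fun s t : S => dotp d (s : V) (t : V)) =
      (Matrix.of fun s t : S => w s ⬝ᵥ w t) := by
    ext s t
    simp [eval_dotp]
  rw [this]

theorem pc_LIC (H : SimpleGraph V) (l : List V) : PC (fun w : V → Fin d → ℝ => LIC H w l) := by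
  induction l with
  | nil => exact pc_true
  | cons i l ih => exact pc_and ih (pc_LI _)

theorem t_PC : J_PC := fun _ _ =>
  ⟨fun S => pc_LI S, fun H l => pc_LIC H l, fun _ _ hP hQ => pc_and hP hQ, fun i j => pc_dot i j,
    pc_true⟩

end Pool.Agent.Run7.h379.GC
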